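import Pool.Agent.helper17.EXT.Spec

/-!
# Row ft:CUT of project EXT (MP_561ff4_al): the centraliser of the unipotent group, first part
-/

set_option autoImplicit false

open Finset

namespace Pool.Agent.EXT

open Pool.Agent.EXC

set_option maxRecDepth 100000 in
theorem CUT_fin : ∀ η ∈ RL, η 1 = 1 → pv η ≠ η → ∃ γ ∈ RL, (∀ i, 0 ≤ γ i) ∧ pv γ ≠ γ ∧ (∀ i, 0 ≤ (η - γ) i) ∧
    pv (η - γ) = η - γ ∧ (η - γ) ∈ RL ∧ ip C6 γ (η - γ) = -1 := by
  decide +kernel

/-- `z + τ z = 0` for all `z` is impossible -/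
theorem CUT_tr {K : Type} [Field K] (τ : K ≃+* K) (hor : (∃ x, τ x ≠ x) ∨ (2 : K) ≠ 0) (h : ∀ z : K, z + τ z = 0) : False := by
  have h2 : (2 : K) = 0 := by
    have := h 1
    rw [map_one] at this
    rw [← this]
    norm_num
  rcases hor with ⟨x, hx⟩ | h3
  · apply hx
    have h4 := h x
    have h5 : x + x = 0 := by rw [← two_mul, h2, zero_mul]
    rw [← h5] at h4
    exact add_left_cancel h4
  · exact h3 h2

theorem CUT (hLST : LST_stmt) (hRTF : RTF_stmt) (hSIG : SIG_stmt) (hSGR : SGR_stmt) (hESF : ESF_stmt) (hGFX : GFX_stmt)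
    (hACS : ACS_stmt) (hUNF : UNF_stmt) (hYSS : YSS_stmt) : CUT_stmt := by
  intro K _ τ hτ hor g hg hcom
  have hE : IsE C6 1 th ![0, 2, 3, 4, 5] := f_DE6.2
  have hnb := (f_NBR 6 C6 1 th ![0, 2, 3, 4, 5] hE).1
  obtain ⟨-, hExE, hEx, -⟩ := f_EXF 6 C6 K hnb
  obtain ⟨hthpos, -, hpos1, -⟩ := f_DMN 6 C6 1 th ![0, 2, 3, 4, 5] hE
  obtain ⟨-, hpv2, hpvadd, hpvneg, -, hPosv, hsn, -, -, -, hsnL, hsg, -, hLth, hth1⟩ := hRTF
  obtain ⟨-, -, -, -, hsifm, hsiE, -, -⟩ := hSIG K τ hτ
  obtain ⟨hSex, hLex, -, -, -, hGS⟩ := hSGR K τ hτ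
  obtain ⟨hESE, hESX⟩ := hESF K τ hτ
  obtain ⟨hGFg, hGFa⟩ := hGFX K τ hτ
  obtain ⟨-, hgAu, hgsi⟩ := hGS g hg
  have hth2 : ip C6 th th = 2 := hLth.1
  have hnth : ip C6 (-th) (-th) = 2 := neg_root C6 hth2
  have hLnth : LR (-th) := ⟨hnth, by rw [hpvneg, hLth.2]⟩
  have hsiL : ∀ β, LR β → si τ (E C6 β : Lm C6 K) = E C6 β := by
    intro β hL
    rw [hsiE β hL.1, hsnL β hL.2, hL.2, Int.cast_one, one_smul]
  -- (1) long positive root vectors are fixed
  have h1 : ∀ β, LR β → Pos β → g (E C6 β) = (E C6 β : Lm C6 K) := by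
    intro β hL hp
    have hES : ExS τ (E C6 β : Lm C6 K) := hESE β hL
    obtain ⟨u, huG, hu⟩ := hLex β 1 hL (map_one τ)
    have huU : u ∈ UG C6 K := Subgroup.subset_closure ⟨β, hL.1, hp, 1, hu⟩
    obtain ⟨fg, hfg, hfgv⟩ := hGFg g hg
    obtain ⟨hF1, -, -, -, hFc⟩ := hGFa _ hES
    obtain ⟨f, hf, hfv⟩ := hF1 1 (map_one τ)
    have hconj := hFc fg hfg g hg hfgv 1 f hfv
    have hcommf : fg * f * fg⁻¹ = f := by
      rw [mul_inv_eq_iff_eq_mul]
      refine Equiv.ext fun v => Subtype.ext ?_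
      rw [Equiv.Perm.mul_apply, Equiv.Perm.mul_apply, hfgv, hfv, hfv, hfgv]
      have := hcom u huG huU v v.2
      rw [hu, hu] at this
      exact this
    rw [hcommf] at hconj
    have hESg : ExS τ (g (E C6 β)) := (hESX _ hES).2.2.2.1 g hg
    have := hUNF K τ hτ (g (E C6 β)) (E C6 β) 1 f hESg hES hconj hfv
    rw [this, one_smul]
  have hgth : g (E C6 th) = (E C6 th : Lm C6 K) := h1 th hLth hthpos
  refine ⟨h1, ?_, ?_⟩
  · -- (2)
    obtain ⟨u, hu, huU, β', hβ', c, -, -, hgu⟩ := hYSS K τ hτ g hg (-th) hLnth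
    have huθ : u (E C6 th) = E C6 th := (f_FPU 6 C6 K 1 th ![0, 2, 3, 4, 5] hE).1 u huU
    have h2 : fm C6 (E C6 th) (g (E C6 (-th))) = 1 := by
      have h3 : fm C6 (E C6 th) (g (E C6 (-th))) = fm C6 (g (E C6 th)) (g (E C6 (-th))) := by
        rw [hgth]
      rw [h3, hgAu.fm, fm_E_E C6 hth2 hnth, if_pos rfl]
    have h4 : fm C6 (E C6 th) (u (E C6 β')) = if β' = -th then (1 : K) else 0 := by
      have h5 : fm C6 (E C6 th) (u (E C6 β')) = fm C6 (u (E C6 th)) (u (E C6 β')) := by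
        rw [huθ]
      rw [h5, (hGS u hu).2.1.fm, fm_E_E C6 hth2 hβ'.1]
    rw [hgu, fm_smul_right, h4] at h2
    by_cases hb : β' = -th
    · rw [if_pos hb, mul_one] at h2
      refine ⟨u, huU, ?_⟩
      rw [hgu, h2, one_smul, hb]
    · rw [if_neg hb, mul_zero] at h2
      exact absurd h2.symm one_ne_zero
  · -- (3)
    intro η hη hη1
    have hne : -th ≠ -η := by
      intro h
      have : th = η := neg_injective h
      rw [this, hη] at hη1
      norm_num at hη1
    have hηpos : Pos η := hpos1 η hη (by rw [hη1])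
    by_cases hL : pv η = η
    · have h2 : fm C6 (E C6 η) (g (E C6 (-th))) = fm C6 (g (E C6 η)) (g (E C6 (-th))) := by
        rw [h1 η ⟨hη, hL⟩ hηpos]
      rw [h2, hgAu.fm, fm_E_E C6 hη hnth, if_neg hne]
    · have hcomm : ip C6 th η = η 1 := hth1 η
      have hη1' : η 1 = 1 := by
        rw [← hcomm, ip_comm C6 th η, hη1]
      obtain ⟨γ, hγR, hγp, hγs, hβp, hβs, hβR, hγβ⟩ := CUT_fin η ((hLST η).1 hη) hη1' hL
      obtain ⟨β, hβ⟩ : ∃ β, β = η - γ := ⟨_, rfl⟩
      rw [← hβ] at hβp hβs hβR hγβ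
      have hsum : γ + β = η := by rw [hβ]; abel
      have hSRγ : SR γ := ⟨(hLST γ).2 hγR, hγs⟩
      have hLRβ : LR β := ⟨(hLST β).2 hβR, hβs⟩
      have hposβ : Pos β := hβp
      have hposγ : Pos γ := hγp
      have hpvη : pv γ + β = pv η := by
        rw [← hsum, hpvadd, hLRβ.2]
      have hpη2 : ip C6 (pv η) (pv η) = 2 := by
        have := hsiE η hη
        by_contra hcon
        rw [E_eq_zero C6 hcon, smul_zero] at this
        have h7 := hsifm (E C6 η) (E C6 (-η))
        rw [this, fm_zero_left, fm_E_E C6 hη (neg_root C6 hη), if_pos rfl, map_one] at h7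
        exact zero_ne_one h7
      have hne' : -th ≠ -pv η := by
        intro h
        have h8 : th = pv η := neg_injective h
        have h9 : pv th = pv (pv η) := by rw [← h8]
        rw [hLth.2] at h9
        rw [hpv2] at h9
        apply hL
        rw [← h8, h9]
      set b : Lm C6 K := g (E C6 (-th)) with hb
      set y : K := fm C6 (E C6 η) b with hy
      -- the other coefficient
      have hy' : fm C6 (E C6 (pv η)) b = (sn η : K) * τ y := by
        have h7 := hsifm (E C6 η) b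
        have h8 : si τ b = b := by
          rw [hb, hgsi, hsiL _ hLnth]
        rw [h8, hsiE η hη, fm_smul_left] at h7
        have h9 : (sn η : K) * (sn η : K) = 1 := by
          rcases hsn η with h | h <;> rw [h] <;> simp
        rw [← h7, ← mul_assoc, h9, one_mul]
      -- the relation
      have hrel : ∀ t : K, t * y + τ (t * y) = 0 := by
        intro t
        obtain ⟨X, hXG, hX⟩ := hSex γ t hSRγ
        have hpγ2 : ip C6 (pv γ) (pv γ) = 2 := by
          have := hsiE γ hSRγ.1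
          by_contra hcon
          rw [E_eq_zero C6 hcon, smul_zero] at this
          have h7 := hsifm (E C6 γ) (E C6 (-γ))
          rw [this, fm_zero_left, fm_E_E C6 hSRγ.1 (neg_root C6 hSRγ.1), if_pos rfl, map_one] at h7
          exact zero_ne_one h7
        have hXU : X ∈ UG C6 K := by
          obtain ⟨x1, -, hx1⟩ := (hEx _ (hExE γ hSRγ.1)).2.2.2.2.1 t
          obtain ⟨x2, -, hx2⟩ := (hEx _ (hExE (pv γ) hpγ2)).2.2.2.2.1 ((sn γ : K) * τ t)
          have hX12 : X = x1 * x2 := by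
            refine LinearEquiv.ext fun v => ?_
            have h3 : (x1 * x2) v = x1 (x2 v) := rfl
            rw [h3, hX, hx1, hx2]
          rw [hX12]
          exact Subgroup.mul_mem _ (Subgroup.subset_closure ⟨γ, hSRγ.1, hposγ, t, hx1⟩)
            (Subgroup.subset_closure ⟨pv γ, hpγ2, hPosv γ hposγ, _, hx2⟩)
        obtain ⟨-, -, -, hA⟩ := hACS K τ hτ γ β hSRγ hLRβ
        obtain ⟨-, hA1⟩ := hA t X hX
        obtain ⟨hLR3, hXβ⟩ := hA1 hγβ
        rw [hsum, hpvη] at hXβ
        have hpos3 : Pos (γ + pv γ + β) := by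
          intro i
          have k1 := hposγ i
          have k2 := hPosv γ hposγ i
          have k3 := hposβ i
          simp only [Pi.add_apply]
          linarith
        have hfix : g (X (E C6 β)) = X (E C6 β) := by
          rw [hcom X hXG hXU (E C6 β) (hsiL β hLRβ), h1 β hLRβ hposβ]
        -- the middle part is fixed
        obtain ⟨A, hAdef⟩ : ∃ A : Lm C6 K, A = (t * (sg C6 γ β : K)) • E C6 η +
            ((sn γ : K) * τ t * (sg C6 (pv γ) β : K)) • E C6 (pv η) := ⟨_, rfl⟩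
        obtain ⟨κ, hκ⟩ : ∃ κ : K, κ = t * ((sn γ : K) * τ t) * (sg C6 (pv γ) β : K) * (sg C6 γ (pv γ + β) : K) := ⟨_, rfl⟩
        have hXβ' : X (E C6 β) = (E C6 β + A + κ • E C6 (γ + pv γ + β) : Lm C6 K) := by
          rw [hXβ, hAdef, hκ, hpvη]
          abel
        have hgA : g A = A := by
          rw [hXβ', map_add, map_add, map_smul, h1 β hLRβ hposβ, h1 _ hLR3 hpos3] at hfix
          exact add_left_cancel (add_right_cancel hfix)
        have hfA : fm C6 A b = 0 := by
          have k1 : fm C6 A b = fm C6 (g A) (g (E C6 (-th))) := by rw [hgA]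
          rw [k1, hgAu.fm, hAdef, fm_add_left, fm_smul_left, fm_smul_left, fm_E_E C6 hη hnth, fm_E_E C6 hpη2 hnth,
            if_neg hne, if_neg hne', mul_zero, mul_zero, add_zero]
        rw [hAdef, fm_add_left, fm_smul_left, fm_smul_left, hy', ← hy] at hfA
        -- signs
        have hs := hsg γ β
        rw [hLRβ.2, hsum, hsnL β hLRβ.2, mul_one] at hs
        have hsK : (sg C6 (pv γ) β : K) * (sg C6 γ β : K) = (sn η : K) * (sn γ : K) := by exact_mod_cast congrArg (Int.cast : ℤ → K) hs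
        have q1 : (sg C6 γ β : K) * (sg C6 γ β : K) = 1 := sg_sq C6 _ _
        have q2 : (sn γ : K) * (sn γ : K) = 1 := by
          rcases hsn γ with h | h <;> rw [h] <;> simp
        have q3 : (sn η : K) * (sn η : K) = 1 := by
          rcases hsn η with h | h <;> rw [h] <;> simp
        have q4 : (sn γ : K) * (sg C6 (pv γ) β : K) * (sn η : K) = (sg C6 γ β : K) := by
          calc (sn γ : K) * (sg C6 (pv γ) β : K) * (sn η : K)
              = (sn γ : K) * (sn η : K) * ((sg C6 (pv γ) β : K) * ((sg C6 γ β : K) * (sg C6 γ β : K))) := by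
                rw [q1, mul_one]; ring
            _ = (sn γ : K) * (sn η : K) * (((sg C6 (pv γ) β : K) * (sg C6 γ β : K)) * (sg C6 γ β : K)) := by ring
            _ = ((sn γ : K) * (sn γ : K)) * ((sn η : K) * (sn η : K)) * (sg C6 γ β : K) := by rw [hsK]; ring
            _ = (sg C6 γ β : K) := by rw [q2, q3, one_mul, one_mul]
        have q5 : (sg C6 γ β : K) * (t * y + τ (t * y)) = 0 := by
          rw [map_mul]
          calc (sg C6 γ β : K) * (t * y + τ t * τ y) = t * (sg C6 γ β : K) * y + (sg C6 γ β : K) * (τ t * τ y) := by ring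
            _ = t * (sg C6 γ β : K) * y + ((sn γ : K) * (sg C6 (pv γ) β : K) * (sn η : K)) * (τ t * τ y) := by rw [q4]
            _ = t * (sg C6 γ β : K) * y + (sn γ : K) * τ t * (sg C6 (pv γ) β : K) * ((sn η : K) * τ y) := by ring
            _ = 0 := hfA
        exact (mul_eq_zero.1 q5).resolve_left (sg_ne_zero C6 γ β)
      by_contra hyne
      refine CUT_tr τ hor fun z => ?_
      have h7 := hrel (z * y⁻¹)
      rw [mul_assoc, inv_mul_cancel₀ hyne, mul_one] at h7
      exact h7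

end Pool.Agent.EXT
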