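import Pool.Agent.helper17.EXT.Spec

/-!
# Row ft:PEF of project EXT (MP_561ff4_al): products of two root elements which are not opposite
-/

set_option autoImplicit false

open Finset

namespace Pool.Agent.EXT

open Pool.Agent.EXC

theorem PEF (hSGR : SGR_stmt) (hTFS : TFS_stmt) : PEF_stmt := by
  intro K _ τ hτ p hp hchar a b m hT hm f f' hf hf'
  obtain ⟨s, -, hfs⟩ := hf
  obtain ⟨t, -, hft⟩ := hf'
  obtain ⟨-, -, -, -, -, hGS⟩ := hSGR K τ hτ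
  have hE : IsE C6 1 th ![0, 2, 3, 4, 5] := f_DE6.2
  have hnb := (f_NBR 6 C6 1 th ![0, 2, 3, 4, 5] hE).1
  have hTp : Tp C6 th a b m := by
    obtain ⟨k, hk, β, hβ, hm', c, c', -, -, hc, hc', h1, h2⟩ := hT
    exact ⟨k, (hGS k hk).1, β, hβ.1, hm', c, c', hc, hc', h1, h2⟩
  obtain ⟨hEa, hEb, -⟩ := f_TPF 6 C6 K th hE.th2 hnb a b m hTp
  obtain ⟨-, -, hx, -⟩ := f_EXF 6 C6 K hnb
  obtain ⟨g, -, e1⟩ := (hx a hEa).2.2.2.2.1 s
  obtain ⟨h, -, e2⟩ := (hx b hEb).2.2.2.2.1 t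
  have key := f_PEL 6 C6 K th hE.th2 hnb p hp hchar a b m hTp hm g h ⟨s, e1⟩ ⟨t, e2⟩
  have hact : ∀ v : LT τ, (((f' * f : GF τ) : Equiv.Perm (LT τ)) v : Lm C6 K) = (h * g) v := by
    intro v
    have h1 : ((f' * f : GF τ) : Equiv.Perm (LT τ)) v = (f' : Equiv.Perm (LT τ)) ((f : Equiv.Perm (LT τ)) v) := rfl
    have h2 : (h * g) (v : Lm C6 K) = h (g v) := rfl
    rw [h1, h2, hft, hfs, e1, e2]
  have hpow : ∀ (N : ℕ) (v : LT τ), ((((f' * f) ^ N : GF τ) : Equiv.Perm (LT τ)) v : Lm C6 K) = ((h * g) ^ N) v := by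
    intro N
    induction N with
    | zero => intro v; rfl
    | succ N ih =>
      intro v
      rw [pow_succ, pow_succ]
      have h1 : (((f' * f) ^ N * (f' * f) : GF τ) : Equiv.Perm (LT τ)) v =
          (((f' * f) ^ N : GF τ) : Equiv.Perm (LT τ)) (((f' * f : GF τ) : Equiv.Perm (LT τ)) v) := rfl
      have h2 : ((h * g) ^ N * (h * g)) (v : Lm C6 K) = ((h * g) ^ N) ((h * g) v) := rfl
      rw [h1, h2, ih, hact]
  refine Subtype.ext (Equiv.ext fun v => Subtype.ext ?_)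
  rw [hpow, key]
  rfl

end Pool.Agent.EXT
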